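import Pool.Agent.RigidConf.Bridge
import Pool.Agent.RigidConf.Small

/-!
No 3-configuration is rigid.
-/

open scoped LinearAlgebra.Projectivization

namespace Pool.Agent.Results.MP_532797_co.NoRigidThreeConfiguration

/-- A combinatorial `(n_3)` configuration: `I p l` says that the point `p` is incident with the
line `l`; every point is on exactly three lines, every line has exactly three points, and two
distinct points are on at most one common line. -/
structure IsConfiguration (n : ℕ) (I : Fin n → Fin n → Prop) : Prop where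
  three_lines : ∀ p, {l | I p l}.ncard = 3
  three_points : ∀ l, {p | I p l}.ncard = 3
  linear : ∀ p q, p ≠ q → ∀ l m, I p l → I q l → I p m → I q m → l = m

/-- A geometric realization in the real projective plane `ℙ ℝ (Fin 3 → ℝ)`: distinct points, and
distinct lines (a line is a two-dimensional subspace of `Fin 3 → ℝ`), such that a point is on a
line if and only if the two are incident. -/
structure Realization {n : ℕ} (I : Fin n → Fin n → Prop) where
  pt : Fin n → ℙ ℝ (Fin 3 → ℝ)
  ln : Fin n → Submodule ℝ (Fin 3 → ℝ)
  ln_dim : ∀ l, Module.finrank ℝ (ln l) = 2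
  pt_injective : Function.Injective pt
  ln_injective : Function.Injective ln
  incidence : ∀ p l, (pt p).submodule ≤ ln l ↔ I p l

/-- Two realizations are projectively equivalent: some projective transformation of the plane,
induced by an invertible linear map `g`, carries each point and each line of the first to the
corresponding point and line of the second. -/
def ProjectivelyEquivalent {n : ℕ} {I : Fin n → Fin n → Prop} (R S : Realization I) : Prop :=
  ∃ g : (Fin 3 → ℝ) ≃ₗ[ℝ] (Fin 3 → ℝ),
    (∀ p, Projectivization.map (g : (Fin 3 → ℝ) →ₗ[ℝ] (Fin 3 → ℝ)) g.injective (R.pt p) = S.pt p) ∧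
    ∀ l, (R.ln l).map (g : (Fin 3 → ℝ) →ₗ[ℝ] (Fin 3 → ℝ)) = S.ln l

open Pool.Agent.RigidConf

theorem conf_of {n : ℕ} {I : Fin n → Fin n → Prop} (hI : IsConfiguration n I) : Conf I where
  line3 p := by
    obtain ⟨a, b, c, hab, hac, hbc, h⟩ := Set.ncard_eq_three.mp (hI.three_lines p)
    refine ⟨a, b, c, hab, hac, hbc, fun l => ?_⟩
    have : l ∈ {l | I p l} ↔ l ∈ ({a, b, c} : Set (Fin n)) := by rw [h]
    simpa using this
  point3 l := by
    obtain ⟨a, b, c, hab, hac, hbc, h⟩ := Set.ncard_eq_three.mp (hI.three_points l)
    refine ⟨a, b, c, hab, hac, hbc, fun p => ?_⟩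
    have : p ∈ {p | I p l} ↔ p ∈ ({a, b, c} : Set (Fin n)) := by rw [h]
    simpa using this
  lin p q l m hpq h1 h2 h3 h4 := hI.linear p q hpq l m h1 h2 h3 h4

/-- **No 3-configuration is rigid.** -/
theorem result (n : ℕ) (hn : 0 < n) (I : Fin n → Fin n → Prop) (hI : IsConfiguration n I)
    (R : Realization I) : ∃ S : Realization I, ¬ ProjectivelyEquivalent R S := by
  have hC := conf_of hI
  have hne : Nonempty (Fin n) := ⟨⟨0, hn⟩⟩
  -- vectors
  choose nv hnv0 hnv using fun l => exists_normal (R.ln l) (R.ln_dim l)
  set ρ : Fin n ⊕ Fin n → V3 := Sum.elim (fun p => (R.pt p).rep) nv with hρdef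
  have hinc : ∀ p l, dt (R.pt p).rep (nv l) = 0 ↔ I p l := by
    intro p l
    rw [hnv, ← R.incidence p l, Projectivization.submodule_eq, Submodule.span_singleton_le_iff_mem]
  have hρ : VReal (levi I) sty ρ := by
    refine ⟨?_, ?_, ?_⟩
    · intro x y hxy
      cases x with
      | inl p =>
        cases y with
        | inl q => exact absurd rfl hxy
        | inr l => exact hinc p l
      | inr l =>
        cases y with
        | inl q =>
          rw [dt_comm]
          exact hinc q l
        | inr m => exact absurd rfl hxy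
    · intro x y hxy hne
      cases x with
      | inl p =>
        cases y with
        | inl q =>
          intro h
          apply hne
          congr 1
          apply R.pt_injective
          have := mk_eq_of_cr (R.pt p).rep_nonzero (R.pt q).rep_nonzero h
          rwa [Projectivization.mk_rep, Projectivization.mk_rep] at this
        | inr l => simp [sty] at hxy
      | inr l =>
        cases y with
        | inl q => simp [sty] at hxy
        | inr m =>
          intro h
          apply hne
          congr 1
          apply R.ln_injective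
          ext x
          rw [← hnv, ← hnv]
          change cr (nv l) (nv m) = 0 at h
          obtain ⟨c, hc⟩ := exists_smul_of_cr_zero (hnv0 l) h
          have hc0 : c ≠ 0 := by
            rintro rfl
            rw [zero_smul] at hc
            exact hnv0 m hc
          have : dt x (c • nv l) = c * dt x (nv l) := by simp [dt]; ring
          rw [hc, this, mul_eq_zero, or_iff_right hc0]
    · intro x
      cases x with
      | inl p => exact (R.pt p).rep_nonzero
      | inr l => exact hnv0 l
  have h9 := small hC ρ hρ
  obtain ⟨ρ', hρ', ⟨a, b, c, d, t1, t2, t3, t4, ea, eb, ec, ed⟩, ⟨p0, hp0⟩⟩ :=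
    move_nine hC rfl h9 hρ
  -- the new realization
  have hmem : ∀ p l, (Projectivization.mk ℝ (ρ' (.inl p)) (hρ'.ne _)).submodule ≤
      LinearMap.ker (dtl (ρ' (.inr l))) ↔ I p l := by
    intro p l
    rw [Projectivization.submodule_mk, Submodule.span_singleton_le_iff_mem, LinearMap.mem_ker,
      dtl_apply]
    exact hρ'.inc (.inr l) (.inl p) (by simp [sty])
  let S : Realization I :=
    { pt := fun p => Projectivization.mk ℝ (ρ' (.inl p)) (hρ'.ne _)
      ln := fun l => LinearMap.ker (dtl (ρ' (.inr l)))
      ln_dim := fun l => finrank_ker_dtl (hρ'.ne _)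
      pt_injective := by
        intro p q hpq
        by_contra hne
        exact hρ'.dist (.inl p) (.inl q) rfl (fun e => hne (Sum.inl_injective e))
          (cr_of_mk_eq _ _ hpq)
      ln_injective := by
        intro l m hlm
        have h1 : LinearMap.ker (dtl (ρ' (.inr l))) = LinearMap.ker (dtl (ρ' (.inr m))) := hlm
        obtain ⟨p, q, r, hpq, -, -, hpqr⟩ := hC.point3 l
        have hp : I p l := (hpqr p).mpr (Or.inl rfl)
        have hq : I q l := (hpqr q).mpr (Or.inr (Or.inl rfl))
        have hp' : I p m := by rw [← hmem, ← h1, hmem]; exact hp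
        have hq' : I q m := by rw [← hmem, ← h1, hmem]; exact hq
        exact hC.lin p q l m hpq hp hq hp' hq'
      incidence := hmem }
  refine ⟨S, ?_⟩
  rintro ⟨g, hg, -⟩
  -- the linear map is a scalar
  have hgp : ∀ p, cr (g (R.pt p).rep) (ρ' (.inl p)) = 0 := by
    intro p
    have h1 := hg p
    rw [← (R.pt p).mk_rep, Projectivization.map_mk] at h1
    exact cr_of_mk_eq _ _ h1
  have hgs : ∀ p, ρ' (.inl p) = ρ (.inl p) → ∃ c : ℝ, g (ρ (.inl p)) = c • ρ (.inl p) := by
    intro p hp
    have h1 := hgp p
    rw [hp] at h1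
    have h2 : cr (ρ (.inl p)) (g (ρ (.inl p))) = 0 := by
      rw [cr_anti]
      rw [show g (ρ (.inl p)) = g (R.pt p).rep from rfl, h1, neg_zero]
    exact exists_smul_of_cr_zero (hρ.ne _) h2
  obtain ⟨c1, hc1⟩ := hgs a ea
  obtain ⟨c2, hc2⟩ := hgs b eb
  obtain ⟨c3, hc3⟩ := hgs c ec
  obtain ⟨c4, hc4⟩ := hgs d ed
  have hscal := frame_scalar t1 t2 t3 t4 (g : V3 →ₗ[ℝ] V3) hc1 hc2 hc3 hc4
  have hc10 : c1 ≠ 0 := by
    rintro rfl
    have h1 := hscal (ρ (.inl a))
    rw [zero_smul] at h1
    exact hρ.ne (.inl a) (g.map_eq_zero_iff.mp h1)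
  apply hp0
  have h1 := hgp p0
  have h2 : g (R.pt p0).rep = c1 • ρ (.inl p0) := hscal (ρ (.inl p0))
  rw [h2] at h1
  have h3 : cr (c1 • ρ (.inl p0)) (ρ' (.inl p0)) = c1 • cr (ρ (.inl p0)) (ρ' (.inl p0)) := by
    apply v3_ext <;> simp <;> ring
  rw [h3] at h1
  exact (smul_eq_zero.mp h1).resolve_left hc10

end Pool.Agent.Results.MP_532797_co.NoRigidThreeConfiguration
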